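import Pool.Agent.N269.MX.Final

set_option autoImplicit false

/-!
# MP_5168f5: the Kakeya maximal estimate for selections computed with little memory

The Kakeya maximal function of `f` at a direction is the largest average of `f` over the
`r`-tubes in this direction; the estimate of Q1 is the estimate for the averages over the tubes
around the lines `{(t, a(v) + t v) : t ∈ ℝ}`, for every selection `v ↦ a(v)` of one line for every
slope `v`.  We prove the estimate `L^n → L^1` in `ℝ^n`, `n = d + 1`, for the selections which are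
computed by a read-once branching program of width `c`: a machine with `c` memory states reads the
vectors `v_0, v_1, ...` of the base `b` digits of `v`, one after the other, and writes vectors of
integers of bounded size,

  `a(v) = ∑ b^(-(n+1)) out_n (q_n, v_n)`,  `q_(n+1) = next_n (q_n, v_n)`;

the tables `next_n` and `out_n` may depend on `n` in an arbitrary way.  The loss is
`C c^K r^(-ε)`: for every `ε` there is `κ > 0` such that at the scale `r` the estimate holds with the
loss `C r^(-ε)` for all programs with at most `r^(-κ)` states, i.e. with a memory of `κ n log_2 b`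
bits when `n` digits are read.  The averages are taken over the parts of the tubes over one of
finitely many intervals of heights, of length `1 / (C c^K)`, in any given interval `(x, y)`; the
list of the intervals does not depend on the program, nor on `r` or `f`.

(Outputs in `(1/q) ℤ` are covered as well: the division by `q` is done by the machine itself, with
`q^d` times as many states.)

Proof.  (1) The maximal estimate over `(ℤ/b^m)^n`, with a loss which is polynomial in `m`: weighted
rank method over `ℤ[ζ]` for parts of lines, averages over shears, dyadic decomposition, products of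
rings.  (2) By duality the sum of the powers `q = n/(n-1)` of the multiplicities of the points
(residues) at the heights `t₀ ∈ ℤ/b^m` is nearly optimal in the mean over `t₀`, for every block of `m`
letters of the program; by the inequality `log x ≤ x - 1` there is one `t₀` for which the product
over all the blocks is nearly optimal.  (3) At a rational height `p/r ≡ t₀` the power sums for long
words are at most the products of those of the blocks (the last block determines the residue).
(4) The words of length `m K` have nearly optimal power sums of the multiplicities of the cells of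
side one over a whole interval of heights around `p/r`; iterating from the first block on, the same
holds at all scales.  (5) Integration over the heights and duality.
-/

open Set MeasureTheory
open scoped ENNReal

namespace Pool.Agent.Results.MP_5168f5_an.BranchingPrograms

/-- A read-once branching program of width `c` which reads vectors of `d` digits in base `b` and
writes vectors of `d` integers of absolute value at most `A`; the tables depend on the time `n`. -/
structure Program (d b c A : ℕ) where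
  start : Fin c
  next : ℕ → Fin c → (Fin d → Fin b) → Fin c
  out : ℕ → Fin c → (Fin d → Fin b) → (Fin d → ℤ)
  bound : ∀ n q w i, |out n q w i| ≤ A

/-- The memory state of the program before it reads the digit number `n` of the input `Y`. -/
def Program.state {d b c A : ℕ} (P : Program d b c A) (Y : ℕ → Fin d → Fin b) : ℕ → Fin c
  | 0 => P.start
  | n + 1 => P.next n (P.state Y n) (Y n)

/-- The base `b` digits of the coordinates of `v ∈ [0,1)^d`. -/
noncomputable def digitSeq {d : ℕ} (b : ℕ) [NeZero b] (v : Fin d → ℝ) (n : ℕ) : Fin d → Fin b :=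
  fun i => Real.digits (v i) b n

/-- The function computed by the program: `∑ b^(-(n+1)) out_n (q_n, v_n)`, where `v_n` are the
digits of `v` and `q_n` is the state before the digit `v_n` is read. -/
noncomputable def Program.fn {d b c A : ℕ} [NeZero b] (P : Program d b c A) (v : Fin d → ℝ)
    (i : Fin d) : ℝ :=
  ∑' n, (P.out n (P.state (digitSeq b v) n) (digitSeq b v n) i : ℝ) / (b : ℝ) ^ (n + 1)

/-- The part over the heights in `J` of the `r`-tube around the line `{(t, p + t v) : t ∈ ℝ}` of
`ℝ^(d+1) = ℝ × ℝ^d` (the cross-section is a cube of side `2 r`). -/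
def tube {d : ℕ} (J : Set ℝ) (r : ℝ) (p v : Fin d → ℝ) : Set (ℝ × (Fin d → ℝ)) :=
  {z | z.1 ∈ J ∧ ∀ i, |z.2 i - (p i + z.1 * v i)| ≤ r}

/-- The mixed norm over an interval of length at most one is at most the `L^n` norm. -/
theorem mixed_le {d : ℕ} {h η : ℝ} {f : ℝ × (Fin d → ℝ) → ℝ≥0∞} (hf : Measurable f) (hη : η ≤ 1) :
    ∫⁻ t in Icc h (h + η), (∫⁻ u, f (t, u) ^ ((d : ℝ) + 1)) ^ (1 / ((d : ℝ) + 1)) ≤
      (∫⁻ z, f z ^ ((d : ℝ) + 1)) ^ (1 / ((d : ℝ) + 1)) := by
  have hfm : Measurable fun t : ℝ => ∫⁻ u, f (t, u) ^ ((d : ℝ) + 1) :=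
    Measurable.lintegral_prod_right' (hf.pow_const _)
  have hd : (0 : ℝ) < (d : ℝ) + 1 := by positivity
  have h1 : ∫⁻ t in Icc h (h + η), (∫⁻ u, f (t, u) ^ ((d : ℝ) + 1)) ^ (1 / ((d : ℝ) + 1)) ≤
      (∫⁻ t in Icc h (h + η), ∫⁻ u, f (t, u) ^ ((d : ℝ) + 1)) ^ (1 / ((d : ℝ) + 1)) := by
    have h2 := eLpNorm'_le_eLpNorm'_mul_rpow_measure_univ (p := 1) (q := (d : ℝ) + 1) one_pos
      (by linarith [(Nat.cast_nonneg d : (0:ℝ) ≤ d)])
      (f := fun t => (∫⁻ u, f (t, u) ^ ((d : ℝ) + 1)) ^ (1 / ((d : ℝ) + 1)))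
      (μ := volume.restrict (Icc h (h + η))) ((hfm.pow_const _).aestronglyMeasurable)
    unfold eLpNorm' at h2
    simp only [enorm_eq_self, ENNReal.rpow_one, div_one, Measure.restrict_apply_univ,
      Real.volume_Icc, add_sub_cancel_left, ← ENNReal.rpow_mul, one_div,
      inv_mul_cancel₀ hd.ne'] at h2
    simp only [one_div]
    refine h2.trans ?_
    calc _ ≤ (∫⁻ t in Icc h (h + η), ∫⁻ u, f (t, u) ^ ((d : ℝ) + 1)) ^ ((d : ℝ) + 1)⁻¹ * 1 := by
          refine mul_le_mul_right ?_ _
          refine ENNReal.rpow_le_one ?_ ?_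
          · rw [← ENNReal.ofReal_one]
            exact ENNReal.ofReal_le_ofReal hη
          · rw [sub_nonneg]
            exact inv_le_one_of_one_le₀ (by linarith [(Nat.cast_nonneg d : (0:ℝ) ≤ d)])
      _ = _ := mul_one _
  refine h1.trans (ENNReal.rpow_le_rpow ?_ (by positivity))
  rw [Measure.volume_eq_prod, lintegral_prod _ (hf.pow_const _).aemeasurable]
  exact setLIntegral_le_lintegral _ _

/-- **The Kakeya maximal estimate `L^n → L^1`, `n = d + 1`, for all selections of lines computed by
branching programs of width `c`**, with the loss `C c^K r^(-ε)`; moreover the mixed norm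
`L^1_t L^n_y` over the interval of heights suffices on the right hand side. -/
theorem result (d b A : ℕ) [NeZero b] (hd : 1 ≤ d) (hb : 2 ≤ b) (ε : ℝ) (hε : 0 < ε)
    (x y : ℝ) (hxy : x < y) :
    ∃ (K : ℕ) (C : ℝ), 1 ≤ C ∧ ∀ c : ℕ, 1 ≤ c → ∃ H : Finset ℝ,
      (∀ h ∈ H, x < h ∧ h + 1 / (C * (c : ℝ) ^ K) < y) ∧
      ∀ (P : Program d b c A) (r : ℝ), 0 < r → r < 1 →
        ∃ h ∈ H, ∃ J : Set ℝ, J = Icc h (h + 1 / (C * (c : ℝ) ^ K)) ∧
        ∀ f : ℝ × (Fin d → ℝ) → ℝ≥0∞, Measurable f →
          ∫⁻ v in {v : Fin d → ℝ | ∀ i, v i ∈ Ico (0 : ℝ) 1},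
              (∫⁻ z in tube J r (P.fn v) v, f z) / ENNReal.ofReal (r ^ d) ≤
            ENNReal.ofReal (C * (c : ℝ) ^ K * r ^ (-ε)) *
              ∫⁻ t in J, (∫⁻ u, f (t, u) ^ ((d : ℝ) + 1)) ^ (1 / ((d : ℝ) + 1)) ∧
          ENNReal.ofReal (C * (c : ℝ) ^ K * r ^ (-ε)) *
              ∫⁻ t in J, (∫⁻ u, f (t, u) ^ ((d : ℝ) + 1)) ^ (1 / ((d : ℝ) + 1)) ≤
            ENNReal.ofReal (C * (c : ℝ) ^ K * r ^ (-ε)) *
              (∫⁻ z, f z ^ ((d : ℝ) + 1)) ^ (1 / ((d : ℝ) + 1)) := by
  obtain ⟨K, C, hC, hmax⟩ := Pool.Agent.N269.MX.max_width (d := d) (b := b) hb hd A hε hxy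
  refine ⟨K, C, hC, fun c hc1 => ?_⟩
  obtain ⟨H, hH, hmax⟩ := hmax c hc1
  refine ⟨H, hH, fun P r hr hr1 => ?_⟩
  let δ : ℕ × Fin c → (Fin d → Fin b) → ℕ × Fin c := fun s w => (s.1 + 1, P.next s.1 s.2 w)
  let α : ℕ × Fin c → (Fin d → Fin b) → Fin d → ℤ := fun s w => P.out s.1 s.2 w
  let L : ℕ → Finset (ℕ × Fin c) := fun i => ({i} : Finset ℕ) ×ˢ Finset.univ
  have hL : ∀ i, ∀ s ∈ L i, ∀ w, δ s w ∈ L (i + 1) := by
    intro i s hs w
    simp only [L, Finset.mem_product, Finset.mem_singleton, Finset.mem_univ, and_true] at hs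
    simp only [L, δ, Finset.mem_product, Finset.mem_singleton, Finset.mem_univ, and_true, hs]
  have hc : ∀ i, (L i).card ≤ c := by
    intro i
    simp [L]
  obtain ⟨h, hh, hf⟩ := hmax (ℕ × Fin c) δ α (fun s w i => P.bound _ _ _ _) L hL hc (0, P.start)
    (by simp [L]) r hr hr1
  refine ⟨h, hh, _, rfl, fun f hfm => ⟨?_, ?_⟩⟩
  swap
  · refine mul_le_mul_right (mixed_le hfm ?_) _
    have h1 : (1:ℝ) ≤ C * (c : ℝ) ^ K := by
      have h2 : (1:ℝ) ≤ (c : ℝ) ^ K := one_le_pow₀ (by exact_mod_cast hc1)
      nlinarith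
    rw [div_le_one (by linarith)]
    exact h1
  obtain ⟨Ψ, hΨ1, hΨ2, hΨ3⟩ := hf f hfm
  have hst : ∀ (Y : ℕ → Fin d → Fin b) (n : ℕ),
      Pool.Agent.N269.AK.st δ (0, P.start) Y n = (n, P.state Y n) := by
    intro Y n
    induction n with
    | zero => rfl
    | succ n ih =>
      show δ (Pool.Agent.N269.AK.st δ (0, P.start) Y n) (Y n) = _
      rw [ih]
      rfl
  have hfn : ∀ v : Fin d → ℝ, P.fn v =
      Pool.Agent.N269.AK.pos b δ α (0, P.start) (Pool.Agent.N269.MX.dseq d b v) := by
    intro v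
    funext i
    unfold Program.fn Pool.Agent.N269.AK.pos Pool.Agent.N269.AK.ser
    refine tsum_congr fun n => ?_
    show _ = ((α (Pool.Agent.N269.AK.st δ (0, P.start) (Pool.Agent.N269.MX.dseq d b v) n)
      (Pool.Agent.N269.MX.dseq d b v n) i : ℤ) : ℝ) / (b : ℝ) ^ (n + 1)
    rw [hst]
    rfl
  have hr0 : ENNReal.ofReal (r ^ d) ≠ 0 := by
    rw [Ne, ENNReal.ofReal_eq_zero, not_le]
    positivity
  have hS : MeasurableSet {v : Fin d → ℝ | ∀ i, v i ∈ Ico (0 : ℝ) 1} := by
    have : {v : Fin d → ℝ | ∀ i, v i ∈ Ico (0 : ℝ) 1} = Set.pi univ fun _ => Ico (0:ℝ) 1 := by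
      ext v; simp
    rw [this]
    exact MeasurableSet.univ_pi fun _ => measurableSet_Ico
  calc ∫⁻ v in {v : Fin d → ℝ | ∀ i, v i ∈ Ico (0 : ℝ) 1},
        (∫⁻ z in tube (Icc h (h + 1 / (C * (c : ℝ) ^ K))) r (P.fn v) v, f z) /
          ENNReal.ofReal (r ^ d)
      ≤ ∫⁻ v in {v : Fin d → ℝ | ∀ i, v i ∈ Ico (0 : ℝ) 1}, Ψ v / ENNReal.ofReal (r ^ d) := by
        refine setLIntegral_mono' hS fun v hv => ?_
        refine ENNReal.div_le_div_right ?_ _
        rw [hfn v]
        exact hΨ2 v hv
    _ ≤ ∫⁻ v, Ψ v / ENNReal.ofReal (r ^ d) := setLIntegral_le_lintegral _ _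
    _ = (∫⁻ v, Ψ v) / ENNReal.ofReal (r ^ d) := by
        simp only [div_eq_mul_inv]
        exact lintegral_mul_const _ hΨ1
    _ ≤ (ENNReal.ofReal (r ^ d) * (ENNReal.ofReal (C * (c : ℝ) ^ K * r ^ (-ε)) *
          ∫⁻ t in Icc h (h + 1 / (C * (c : ℝ) ^ K)),
            (∫⁻ u, f (t, u) ^ ((d : ℝ) + 1)) ^ (1 / ((d : ℝ) + 1)))) / ENNReal.ofReal (r ^ d) :=
        ENNReal.div_le_div_right hΨ3 _
    _ = _ := by
        rw [mul_comm, ENNReal.mul_div_cancel_right hr0 ENNReal.ofReal_ne_top]

end Pool.Agent.Results.MP_5168f5_an.BranchingPrograms
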