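import Pool.Agent.N248.KR.Src
import Pool.Agent.N248.KR.Shp

/-!
# The Kakeya maximal inequality for random sets of directions

Sample `M ≤ δ ^ (-(p - 1))` independent uniformly distributed directions `e₁, …, e_M` in `R^n`.
This file proves that, with probability at least `1 - C δ ^ B`, the Kakeya maximal inequality
`δ ^ (n - 1) ∑ᵢ f*_δ(eᵢ) ^ p ≤ C δ ^ (-ε) ∫ f ^ p` holds **without loss** for all `f` at once, for
all `2 ≤ p ≤ (n + 2) / 2` (and `p ≤ 1 + 25 (n - 1) / 42` if `n ≥ 10`); in particular the unit tubes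
of width `δ` in `δ ^ (-n / 2)` random directions are essentially disjoint however they are placed.
It follows from a general equivalence between maximal inequalities on the sphere with a loss
`δ ^ (-γ)` and maximal inequalities without loss for random sets of `δ ^ (-(n - 1 - γ))` directions.
-/

set_option autoImplicit false

open MeasureTheory Set Metric
open scoped ENNReal

namespace Pool.Agent.Results.MP_5168f5_an.RandomDirections

/-- `R^n`. -/
abbrev E (n : ℕ) := EuclideanSpace ℝ (Fin n)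

/-- The closed cylinder of length `1` and radius `δ` with centre `a` and axis direction `e`. -/
def tube {n : ℕ} (δ : ℝ) (a e : E n) : Set (E n) :=
  {y | |inner ℝ (y - a) e| ≤ 1 / 2 ∧ ‖(y - a) - (inner ℝ (y - a) e) • e‖ ≤ δ}

/-- The Kakeya maximal function of a nonnegative function. -/
noncomputable def kakeyaMax {n : ℕ} (δ : ℝ) (f : E n → ℝ≥0∞) (e : E n) : ℝ≥0∞ :=
  ⨆ a : E n, (volume (tube δ a e))⁻¹ * ∫⁻ y in tube δ a e, f y

/-- The uniform probability measure on the unit sphere. -/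
noncomputable def unif (n : ℕ) : Measure (sphere (0 : E n) 1) :=
  ((volume : Measure (E n)).toSphere univ)⁻¹ • (volume : Measure (E n)).toSphere

/-- The maximal inequality with exponent `p` and constant `C` for the finite family of directions
`ω`: `δ ^ (n - 1) ∑ᵢ f*_δ(ω i) ^ p ≤ C ∫ f ^ p` for all measurable `f ≥ 0`. -/
def Holds {n M : ℕ} (p C δ : ℝ) (ω : Fin M → sphere (0 : E n) 1) : Prop :=
  ∀ f : E n → ℝ≥0∞, AEMeasurable f volume →
    ENNReal.ofReal (δ ^ (n - 1)) * ∑ i, kakeyaMax δ f (ω i) ^ p ≤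
      ENNReal.ofReal C * ∫⁻ y, f y ^ p

/-- The maximal inequality in `L^p(P)` with the loss `δ ^ (-γ - ε)` for all `ε > 0`. The inequality
of the Kakeya maximal function conjecture in `R^n` is `MaximalBound (unif n) n 0`, and the
conjectured `L^p` inequality for `p ≤ n` is `MaximalBound (unif n) p (n - p)`. -/
def MaximalBound {n : ℕ} (P : Measure (sphere (0 : E n) 1)) (p γ : ℝ) : Prop :=
  ∀ ε : ℝ, 0 < ε → ∃ C : ℝ, 0 < C ∧ ∀ δ : ℝ, 0 < δ → δ < 1 →
    ∀ f : E n → ℝ≥0∞, AEMeasurable f volume →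
      ∫⁻ e, kakeyaMax δ f (e : E n) ^ p ∂P ≤
        ENNReal.ofReal (C * δ ^ (-γ - ε)) * ∫⁻ y, f y ^ p

/-- The maximal inequality for random directions: for all `ε, B > 0`, `0 < δ < 1` and
`M ≤ δ ^ (-(n - 1 - γ))`, the set of all `ω` for which the inequality with constant `C δ ^ (-ε)`
fails has measure at most `C δ ^ B`, if the `M` directions are independent with law `P`. -/
def RandomBound {n : ℕ} (P : Measure (sphere (0 : E n) 1)) (p γ : ℝ) : Prop :=
  ∀ ε : ℝ, 0 < ε → ∀ B : ℝ, 0 < B → ∃ C : ℝ, 0 < C ∧ ∀ δ : ℝ, 0 < δ → δ < 1 → ∀ M : ℕ,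
    (M : ℝ) ≤ δ ^ (-((n : ℝ) - 1 - γ)) →
    (Measure.pi fun _ : Fin M => P) {ω | ¬ Holds p (C * δ ^ (-ε)) δ ω} ≤ ENNReal.ofReal (C * δ ^ B)

/-- For `n ≥ 2`:
(1) for every probability measure `P` on the sphere, `p ≥ 2` and `0 ≤ γ ≤ n - 1`, the maximal
inequality in `L^p(P)` with loss `δ ^ (-γ)` is equivalent to the maximal inequality without loss for
`δ ^ (-(n - 1 - γ))` random directions with law `P`;
(2) for uniformly distributed directions and `2 ≤ p ≤ (n + 2) / 2`, `n ≥ 3` (or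
`2 ≤ p ≤ 1 + 25 (n - 1) / 42`, `n ≥ 10`) the maximal inequality holds without loss for
`M ≤ δ ^ (-(p - 1))` random directions;
(3) the number of directions in (2) is optimal for every choice of the directions. -/
theorem result (n : ℕ) (hn : 2 ≤ n) :
    (∀ P : Measure (sphere (0 : E n) 1), IsProbabilityMeasure P → ∀ p γ : ℝ, 2 ≤ p → 0 ≤ γ →
      γ ≤ (n : ℝ) - 1 → (MaximalBound P p γ ↔ RandomBound P p γ)) ∧
    (∀ p : ℝ, 2 ≤ p → ((3 ≤ n ∧ p ≤ ((n : ℝ) + 2) / 2) ∨
      (10 ≤ n ∧ p ≤ 1 + 25 / 42 * ((n : ℝ) - 1))) → RandomBound (unif n) p (n - p)) ∧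
    (∀ p : ℝ, 0 < p → ∃ c : ℝ, 0 < c ∧ ∀ δ : ℝ, 0 < δ → δ ≤ 1 / 2 →
      ∀ (M : ℕ) (ω : Fin M → sphere (0 : E n) 1) (C : ℝ), 0 ≤ C → Holds p C δ ω →
        (M : ℝ) ≤ c * C * δ ^ (-(p - 1))) := by
  obtain ⟨d, rfl⟩ : ∃ d, n = d + 1 := ⟨n - 1, by omega⟩
  have e1 : ∀ γ : ℝ, (((d + 1 : ℕ) : ℝ) - 1 - γ) = d - γ := fun γ => by push_cast; ring
  have e2 : (((d + 1 : ℕ) : ℝ) - 1) = d := by push_cast; ring
  have key : ∀ (P : Measure (sphere (0 : E (d + 1)) 1)) (p γ : ℝ),
      RandomBound P p γ ↔ Pool.Agent.N248.KR.RandP d P p γ := by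
    intro P p γ
    unfold RandomBound
    rw [e1]
    exact Iff.rfl
  refine ⟨?_, ?_, ?_⟩
  · intro P hP p γ hp hγ hγd
    rw [e2] at hγd
    rw [key]
    exact Pool.Agent.N248.KR.KB_iff_rand (by omega) hp hγ hγd P
  · intro p hp h
    rw [key]
    have e3 : (((d + 1 : ℕ) : ℝ) - p) = (d : ℝ) + 1 - p := by push_cast; ring
    rw [e3]
    rcases h with ⟨h1, h2⟩ | ⟨h1, h2⟩
    · refine Pool.Agent.N248.KR.rand_wolff (by omega) hp ?_
      push_cast at h2
      linarith
    · refine Pool.Agent.N248.KR.rand_hybrid (by omega) hp ?_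
      rw [e2] at h2
      exact h2
  · intro p hp
    exact Pool.Agent.N248.KR.sharp_number d hp

end Pool.Agent.Results.MP_5168f5_an.RandomDirections
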