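import Mathlib
import Pool.Agent.N248.KG.O
set_option autoImplicit false

/-!
# The Kakeya maximal function and random regions

Divide `ℝ^n` into the cells `δ (j + [0,1)^n)` and choose the cells at random, independently, each with
probability `λ`. Let `Ω` be the union of the chosen cells in a fixed ball: a random region of density
`λ`, which contains a proportion `λ` of every tube of width `δ`.

**Theorem.** (1) Let `p > 1`, `γ ≥ 0`, `γ ≥ n - p` and `τ ≥ 0`. The maximal inequality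
`∫ (f*_δ)^p ≤ C δ^(-γ - τ (p-1) - ε) ∫ f^p` for all functions is equivalent to the maximal inequality
`∫ (f*_δ)^p ≤ C δ^(-γ - ε) ∫ f^p` for all functions on `Ω` at once, with high probability, for random
regions `Ω` of density `δ^τ`.

(2) The conjectured inequality, with the loss `δ^(-(n-p))`, holds for all functions on a random region
of density `δ^(1 - n/(2(p-1)))`, `(n+2)/2 ≤ p ≤ n`; in particular the inequality of the maximal
function conjecture in `L^n` holds for all functions on random regions of density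
`δ^((n-2)/(2(n-1)))`: density `δ^(1/4)` in `ℝ³`. For `n ≥ 10` the density can be `δ^(17/42)`.

(3) For all finite families of directions simultaneously: with high probability the best constant
`K` of the maximal inequality for a family of `M` directions is replaced by
`λ^(p-1) K + δ^(p-1) M` for functions on `Ω`.
-/

namespace Pool.Agent.Results.MP_5168f5_an.RandomRegions

open MeasureTheory Set Metric ProbabilityTheory
open scoped ENNReal

/-- `R^n`. -/
abbrev E (n : ℕ) := EuclideanSpace ℝ (Fin n)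

/-- The closed cylinder of length `1` and radius `δ` with centre `a` and axis direction `e`. -/
def tube {n : ℕ} (δ : ℝ) (a e : E n) : Set (E n) :=
  {y | |inner ℝ (y - a) e| ≤ 1 / 2 ∧ ‖(y - a) - (inner ℝ (y - a) e) • e‖ ≤ δ}

/-- The Kakeya maximal function of a nonnegative function. -/
noncomputable def kakeyaMax {n : ℕ} (δ : ℝ) (f : E n → ℝ≥0∞) (e : E n) : ℝ≥0∞ :=
  ⨆ a : E n, (volume (tube δ a e))⁻¹ * ∫⁻ y in tube δ a e, f y

/-- The uniform probability measure on the unit sphere. -/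
noncomputable def unif (n : ℕ) : Measure (sphere (0 : E n) 1) :=
  ((volume : Measure (E n)).toSphere univ)⁻¹ • (volume : Measure (E n)).toSphere

/-- The cell `δ (j + [0,1)^n)`. -/
def cell {n : ℕ} (δ : ℝ) (j : Fin n → ℤ) : Set (E n) :=
  {x | ∀ i, δ * j i ≤ x i ∧ x i < δ * (j i + 1)}

/-- Independent events `A j` (the cell `j` is chosen) of probability `lam`. -/
structure RandomCells {n : ℕ} {Ω : Type} [MeasurableSpace Ω] (P : Measure Ω)
    (A : (Fin n → ℤ) → Set Ω) (lam : ℝ) : Prop where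
  meas : ∀ j, MeasurableSet (A j)
  indep : iIndepSet A P
  prob : ∀ j, P (A j) = ENNReal.ofReal lam

/-- The part of the union of the chosen cells in the ball of radius `R`. -/
def region {n : ℕ} {Ω : Type} (δ R : ℝ) (A : (Fin n → ℤ) → Set Ω) (x : Ω) : Set (E n) :=
  (⋃ j ∈ {j | x ∈ A j}, cell δ j) ∩ closedBall 0 R

/-- The maximal inequality in `L^p` with constant `C` for all functions on `W`. -/
def MaximalOn {n : ℕ} (p C δ : ℝ) (W : Set (E n)) : Prop :=
  ∀ f : E n → ℝ≥0∞, AEMeasurable f volume → (∀ y, f y ≠ 0 → y ∈ W) →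
    ∫⁻ e, kakeyaMax δ f (e : E n) ^ p ∂(unif n) ≤ ENNReal.ofReal C * ∫⁻ y, f y ^ p

/-- The maximal inequality for the directions `e 1, …, e M` and all functions on `W`:
`δ ^ (n - 1) ∑ᵢ f*_δ(e i) ^ p ≤ C ∫ f ^ p`. -/
def FamilyOn {n M : ℕ} (p C δ : ℝ) (W : Set (E n)) (e : Fin M → sphere (0 : E n) 1) : Prop :=
  ∀ f : E n → ℝ≥0∞, AEMeasurable f volume → (∀ y, f y ≠ 0 → y ∈ W) →
    ENNReal.ofReal (δ ^ (n - 1)) * ∑ i, kakeyaMax δ f (e i) ^ p ≤
      ENNReal.ofReal C * ∫⁻ y, f y ^ p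

/-- The maximal inequality in `L^p` with the loss `δ ^ (-γ - ε)` for all `ε > 0`. The inequality
of the Kakeya maximal function conjecture in `R^n` is `MaximalBound n n 0`. -/
def MaximalBound (n : ℕ) (p γ : ℝ) : Prop :=
  ∀ ε : ℝ, 0 < ε → ∃ C : ℝ, 0 < C ∧ ∀ δ : ℝ, 0 < δ → δ < 1 →
    MaximalOn (n := n) p (C * δ ^ (-γ - ε)) δ univ

/-- The maximal inequality with the loss `δ ^ (-γ - ε)` for random regions of density `δ ^ τ`: for all
`ε, B, R > 0` and `0 < δ < 1` it holds with the constant `C δ ^ (-γ - ε)` for all functions on the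
region in the ball of radius `R`, outside an event of probability at most `C δ ^ B`. -/
def RandomBound (n : ℕ) (p τ γ : ℝ) : Prop :=
  ∀ ε B R : ℝ, 0 < ε → 0 < B → 0 < R → ∃ C : ℝ, 0 < C ∧ ∀ δ : ℝ, 0 < δ → δ < 1 →
    ∀ (Ω : Type) [MeasurableSpace Ω] (P : Measure Ω) [IsProbabilityMeasure P]
      (A : (Fin n → ℤ) → Set Ω), RandomCells P A (δ ^ τ) →
      P {x | ¬ MaximalOn p (C * δ ^ (-γ - ε)) δ (region δ R A x)} ≤ ENNReal.ofReal (C * δ ^ B)

/-- For `n ≥ 2`:
(1) for `p > 1`, `τ ≥ 0`, `γ ≥ max (0, n - p)`, the maximal inequality in `L^p` with loss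
`δ ^ (-(γ + τ (p - 1)))` is equivalent to the maximal inequality with loss `δ ^ (-γ)` on random
regions of density `δ ^ τ`;
(2) for `n ≥ 3` and `(n + 2) / 2 ≤ p ≤ n` the maximal inequality with the loss `δ ^ (-(n - p))` holds on
random regions of density `δ ^ (1 - n / (2 (p - 1)))`; for `n ≥ 10` and
`1 + 25 (n - 1) / 42 ≤ p ≤ n` on random regions of density `δ ^ (1 - 25 (n - 1) / (42 (p - 1)))`;
(3) on random regions of density `lam`, outside an event of small probability, for all families of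
`M ≤ δ ^ (-n)` directions simultaneously the constant `K` of the maximal inequality for the family
can be replaced by `C δ ^ (-ε) (lam ^ (p - 1) K + δ ^ (p - 1) M)`. -/
theorem result (n : ℕ) (hn : 2 ≤ n) :
    (∀ p γ τ : ℝ, 1 < p → 0 ≤ τ → 0 ≤ γ → (n : ℝ) - p ≤ γ →
      (MaximalBound n p (γ + τ * (p - 1)) ↔ RandomBound n p τ γ)) ∧
    (∀ p : ℝ, p ≤ n →
      (3 ≤ n → ((n : ℝ) + 2) / 2 ≤ p → RandomBound n p (1 - n / (2 * (p - 1))) (n - p)) ∧
      (10 ≤ n → 1 + 25 / 42 * ((n : ℝ) - 1) ≤ p →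
        RandomBound n p (1 - 25 * ((n : ℝ) - 1) / (42 * (p - 1))) (n - p))) ∧
    ∀ p ε B R : ℝ, 1 < p → 0 < ε → 0 < B → 0 < R → ∃ C : ℝ, 0 < C ∧
      ∀ δ lam : ℝ, 0 < δ → δ < 1 → 0 ≤ lam → ∀ (Ω : Type) [MeasurableSpace Ω] (P : Measure Ω)
        [IsProbabilityMeasure P] (A : (Fin n → ℤ) → Set Ω), RandomCells P A lam →
        P {x | ¬ ∀ (M : ℕ) (e : Fin M → sphere (0 : E n) 1) (K : ℝ), (M : ℝ) ≤ δ ^ (-(n : ℝ)) →
          0 ≤ K → FamilyOn p K δ univ e →
          FamilyOn p (C * δ ^ (-ε) * (lam ^ (p - 1) * K + δ ^ (p - 1) * M)) δ (region δ R A x) e} ≤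
        ENNReal.ofReal (C * δ ^ B) := by
  obtain ⟨d, rfl⟩ : ∃ d, n = d + 1 := ⟨n - 1, by omega⟩
  have hcast : ((d + 1 : ℕ) : ℝ) = (d : ℝ) + 1 := by push_cast; ring
  have keyM : ∀ (p γ : ℝ), MaximalBound (d + 1) p γ ↔
      Pool.Agent.N248.KR.KB d (Pool.Agent.N248.KR.Pu d) p γ := by
    intro p γ
    constructor
    · intro h ε hε
      obtain ⟨C, hC, h⟩ := h ε hε
      exact ⟨C, hC, fun δ hδ hδ1 f hf => h δ hδ hδ1 f hf fun y _ => mem_univ y⟩
    · intro h ε hε
      obtain ⟨C, hC, h⟩ := h ε hε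
      exact ⟨C, hC, fun δ hδ hδ1 f hf _ => h δ hδ hδ1 f hf⟩
  have keyR : ∀ (p τ γ : ℝ), RandomBound (d + 1) p τ γ ↔
      Pool.Agent.N248.KG.RandR d p τ γ := by
    intro p τ γ
    constructor
    · intro h ε B R hε hB hR
      obtain ⟨C, hC, h⟩ := h ε B R hε hB hR
      exact ⟨C, hC, fun δ hδ hδ1 Ω _ P _ A hA => h δ hδ hδ1 Ω P A ⟨hA.meas, hA.indep, hA.prob⟩⟩
    · intro h ε B R hε hB hR
      obtain ⟨C, hC, h⟩ := h ε B R hε hB hR
      exact ⟨C, hC, fun δ hδ hδ1 Ω _ P _ A hA => h δ hδ hδ1 Ω P A ⟨hA.meas, hA.indep, hA.prob⟩⟩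
  have hn1 : ((d + 1 : ℕ) : ℝ) - 1 = d := by rw [hcast]; ring
  refine ⟨?_, ?_, ?_⟩
  · intro p γ τ hp hτ hγ hγ'
    rw [keyM, keyR]
    rw [hcast] at hγ'
    exact Pool.Agent.N248.KG.KB_iff_RandR (by omega) hp hτ hγ hγ'
  · intro p _
    refine ⟨fun h3 hp => ?_, fun h10 hp => ?_⟩
    · rw [keyR, hcast]
      rw [hcast] at hp
      exact Pool.Agent.N248.KG.randR_wolff (by omega) (by linarith)
    · rw [keyR, hn1, hcast]
      rw [hn1] at hp
      exact Pool.Agent.N248.KG.randR_hybrid (by omega) hp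
  · intro p ε B R hp hε hB hR
    obtain ⟨C, hC, h⟩ := Pool.Agent.N248.KG.cells_prob d hp hε hB.le hR.le
    refine ⟨C, by linarith, ?_⟩
    intro δ lam hδ hδ1 hl Ω _ P _ A hA
    have hA' : Pool.Agent.N248.KG.RCells P A lam := ⟨hA.meas, hA.indep, hA.prob⟩
    refine le_trans (measure_mono ?_) ((h δ hδ hδ1 P A hA'.prod lam hl
      fun j => (hA.prob j).le).trans (ENNReal.ofReal_le_ofReal ?_))
    · intro x hx hgo
      refine hx fun M e K hM hK hf => ?_
      rw [hcast] at hM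
      exact hgo M e K hM hK fun f hfm => hf f hfm fun y _ => mem_univ y
    · have : 0 < δ ^ B := by positivity
      nlinarith

end Pool.Agent.Results.MP_5168f5_an.RandomRegions
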