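import Pool.Agent.N249.LR.Fin

set_option autoImplicit false

/-!
# MP_5168f5: the Kakeya maximal estimate for the tubes tangent to a paraboloid

Let `n = k + 3 ≥ 3` and let `Σ ⊂ ℝ^n` be the two-dimensional paraboloid of the points
`P = (q, |q|², 0)`, `q ∈ ℝ²`.  At the point `P` consider the hyperplane
`V_P = {e : e_2 = 2 (P_0 e_0 + P_1 e_1)}` (in the coordinates `0, 1, 2, ..., n-1`), which contains the
tangent plane of `Σ`; for `n = 3` it is the tangent plane.

`tangentMax R δ f e` is the Kakeya maximal function `f^*_δ (e)` in which the supremum is restricted to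
the tubes `T_e^δ(a)` whose axis line passes within `δ` of a point `P ∈ Σ`, `|q| ≤ R`, with `e ∈ V_P`
(for `n = 3`: the axis is, up to a translation by at most `δ`, a tangent line of the paraboloid); for
`n > 3` the components `e_3, ..., e_{n-1}` are supposed to be at most `R |(e_0, e_1)|`.  There is
no restriction on how the tube depends on `e`, nor on its position on the line.  This maximal
function satisfies the estimate of the Kakeya maximal conjecture, at the critical exponent `n`,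
with a logarithmic loss in `δ`.
-/

open MeasureTheory Set ENNReal Metric

namespace Pool.Agent.Results.MP_5168f5_an.TangentTubes

/-- The closed tube of length `1` and radius `δ` with centre `b` and axis direction `e`. -/
def tube {n : ℕ} (δ : ℝ) (e b : EuclideanSpace ℝ (Fin n)) : Set (EuclideanSpace ℝ (Fin n)) :=
  {y | |inner ℝ (y - b) e| ≤ 1 / 2 ∧ ‖(y - b) - (inner ℝ (y - b) e : ℝ) • e‖ ≤ δ}

/-- The part `|q| ≤ R` of the two-dimensional paraboloid `{(q, |q|², 0)}` in `ℝ^(k+3)`. -/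
def paraboloid (k : ℕ) (R : ℝ) : Set (EuclideanSpace ℝ (Fin (k + 3))) :=
  {P | P 2 = P 0 ^ 2 + P 1 ^ 2 ∧ P 0 ^ 2 + P 1 ^ 2 ≤ R ^ 2 ∧ ∀ i : Fin (k + 3), 2 < i → P i = 0}

/-- The direction `e` is orthogonal to the normal `(2 P_0, 2 P_1, -1, 0, ..., 0)`, and its last
`k` components are at most `R` times the length of `(e_0, e_1)` (no condition if `k = 0`). -/
def TangentDir {k : ℕ} (R : ℝ) (P e : EuclideanSpace ℝ (Fin (k + 3))) : Prop :=
  e 2 = 2 * (P 0 * e 0 + P 1 * e 1) ∧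
    ∀ i : Fin (k + 3), 2 < i → |e i| ≤ R * √(e 0 ^ 2 + e 1 ^ 2)

/-- Supremum of the averages of `|f|` over the `δ`-tubes with direction `e` whose axis line
(through the centre `a`) passes at distance at most `δ` from a point `P` of the paraboloid such
that `e` is a tangent direction at `P`. -/
noncomputable def tangentMax {k : ℕ} (R δ : ℝ) (f : EuclideanSpace ℝ (Fin (k + 3)) → ℝ)
    (e : EuclideanSpace ℝ (Fin (k + 3))) : ℝ≥0∞ :=
  ⨆ (a : EuclideanSpace ℝ (Fin (k + 3))) (P : EuclideanSpace ℝ (Fin (k + 3)))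
    (_ : P ∈ paraboloid k R) (_ : TangentDir R P e)
    (_ : ‖(a - P) - (inner ℝ (a - P) e : ℝ) • e‖ ≤ δ),
      (volume (tube δ e a))⁻¹ * ∫⁻ y in tube δ e a, ‖f y‖ₑ

open Pool.Agent.N249.LR in
theorem main (k : ℕ) (R : ℝ) (hR : 0 ≤ R) : ∃ C : ℝ, 0 < C ∧
    ∀ (δ : ℝ) (F : Eu k → ℝ≥0∞), 0 < δ → δ < 1 → Measurable F →
      ∃ H : Eu k → ℝ≥0∞, Measurable H ∧
        (∀ e c P : Eu k, ‖e‖ = 1 → Adm R δ e c P →
          ((volume (tub δ e c))⁻¹ * ∫⁻ x in tub δ e c, F x) ≤ H e) ∧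
        ∫⁻ e : sphere (0 : Eu k) 1, H e ^ (k + 3) ∂(volume : Measure (Eu k)).toSphere
          ≤ ENNReal.ofReal (C * (1 + Real.log (1 / δ)) ^ (k + 2)) * ∫⁻ y, F y ^ (k + 3) := by
  obtain ⟨c0, hc0, hvol⟩ := Pool.Agent.H742R2.Kk.volume_tube (k + 2)
  set C0 : ℝ := (2 * (4 * R + 6) ^ 2 * (2 * (4 * R + 2)) ^ k * Real.exp (25 * Real.pi) / c0) ^
        (k + 3) with hC0
  set C1 : ℝ := 2 * ((k : ℝ) + 3) * (7 ^ (k + 1) * (3 * ((4 * Real.pi * 5 + 2) * (11 *
        (3 * (1 + R) ^ k))))) with hC1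
  have hC0' : 0 < C0 := by rw [hC0]; positivity
  have hC1' : 0 < C1 := by
    rw [hC1]
    have := Real.pi_pos
    positivity
  refine ⟨C0 * C1, by positivity, ?_⟩
  intro δ F hδ hδ1 hF
  have hk : ((k : ℝ) + 3) ≠ 0 := by positivity
  have hpow : ∀ x : ℝ≥0∞, (x ^ (1 / ((k : ℝ) + 3))) ^ (k + 3) = x := by
    intro x
    rw [← ENNReal.rpow_natCast, ← ENNReal.rpow_mul]
    push_cast
    rw [one_div_mul_cancel hk, ENNReal.rpow_one]
  have hpow' : ∀ x : ℝ≥0∞, (x ^ (k + 3)) ^ (1 / ((k : ℝ) + 3)) = x := by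
    intro x
    rw [← ENNReal.rpow_natCast, ← ENNReal.rpow_mul]
    push_cast
    rw [mul_one_div_cancel hk, ENNReal.rpow_one]
  refine ⟨fun e => (ENNReal.ofReal C0 * Hs (Psi R δ F) e) ^ (1 / ((k : ℝ) + 3)), ?_, ?_, ?_⟩
  · exact ((Hs_meas (Psi_meas R δ hF)).const_mul _).pow_const _
  · intro e c P he h
    have h1 := avg_le hR hδ hδ1.le he h hF hc0 (hvol δ e c hδ he)
    calc (volume (tub δ e c))⁻¹ * ∫⁻ x in tub δ e c, F x
        = (((volume (tub δ e c))⁻¹ * ∫⁻ x in tub δ e c, F x) ^ (k + 3)) ^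
            (1 / ((k : ℝ) + 3)) := (hpow' _).symm
      _ ≤ _ := ENNReal.rpow_le_rpow h1 (by positivity)
  · simp only [hpow]
    rw [lintegral_const_mul' _ _ ENNReal.ofReal_ne_top]
    calc ENNReal.ofReal C0 * ∫⁻ e : sphere (0 : Eu k) 1, Hs (Psi R δ F) e
          ∂(volume : Measure (Eu k)).toSphere
        ≤ ENNReal.ofReal C0 * (ENNReal.ofReal (C1 * (1 + Real.log (1 / δ)) ^ (k + 2)) *
            ∫⁻ x, F x ^ (k + 3)) := by
          gcongr
          exact Psi_int hR hδ hδ1.le hF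
      _ = _ := by
          rw [← mul_assoc, ← ENNReal.ofReal_mul hC0'.le, ← mul_assoc]

/-- **The Kakeya maximal estimate for the tubes tangent to a paraboloid**, in all dimensions
`n = k + 3 ≥ 3`, at the critical exponent `n`, with a logarithmic loss.  The restricted maximal
function is at most a Borel function `H` of the direction with the stated bound. -/
theorem result (k : ℕ) (R : ℝ) (hR : 0 ≤ R) : ∃ C : ℝ, 0 < C ∧
    ∀ (δ : ℝ) (f : EuclideanSpace ℝ (Fin (k + 3)) → ℝ), 0 < δ → δ < 1 → AEMeasurable f volume →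
      ∃ H : EuclideanSpace ℝ (Fin (k + 3)) → ℝ≥0∞, Measurable H ∧
        (∀ e ∈ sphere (0 : EuclideanSpace ℝ (Fin (k + 3))) 1, tangentMax R δ f e ≤ H e) ∧
        ∫⁻ e : sphere (0 : EuclideanSpace ℝ (Fin (k + 3))) 1, H e ^ (k + 3)
            ∂(volume : Measure (EuclideanSpace ℝ (Fin (k + 3)))).toSphere
          ≤ ENNReal.ofReal (C * (1 + Real.log (1 / δ)) ^ (k + 2)) * ∫⁻ y, ‖f y‖ₑ ^ (k + 3) := by
  obtain ⟨C, hC, hmain⟩ := main k R hR
  refine ⟨C, hC, ?_⟩
  intro δ f hδ hδ1 hf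
  obtain ⟨H, hH, hle, hint⟩ := hmain δ (fun y => ‖hf.mk f y‖ₑ) hδ hδ1 hf.measurable_mk.enorm
  refine ⟨H, hH, ?_, ?_⟩
  · intro e he
    have he1 : ‖e‖ = 1 := by simpa using he
    unfold tangentMax
    refine iSup_le fun a => iSup_le fun P => iSup_le fun hP => iSup_le fun hT => iSup_le fun ha => ?_
    have h1 : ∫⁻ y in tube δ e a, ‖f y‖ₑ = ∫⁻ y in tube δ e a, ‖hf.mk f y‖ₑ := by
      apply lintegral_congr_ae
      filter_upwards [ae_restrict_of_ae hf.ae_eq_mk] with y hy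
      rw [hy]
    rw [h1]
    exact hle e a P he1 ⟨hP.1, hP.2.1, hP.2.2, hT.1, hT.2, ha⟩
  · have h2 : ∫⁻ y, ‖f y‖ₑ ^ (k + 3) = ∫⁻ y, ‖hf.mk f y‖ₑ ^ (k + 3) := by
      apply lintegral_congr_ae
      filter_upwards [hf.ae_eq_mk] with y hy
      rw [hy]
    rw [h2]
    exact hint

end Pool.Agent.Results.MP_5168f5_an.TangentTubes
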